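import Mathlib

namespace Pool.Agent.Results.MP_f32e1d_an.Q1

open Filter Topology MeasureTheory Finset

section Defs
variable {E F : Type} [AddCommGroup E] [Lattice E] [AddCommGroup F] [Lattice F]

/-- Disjoint elements. -/
def Dj (x y : E) : Prop := |x| ⊓ |y| = 0

/-- Orthogonally additive maps. -/
def OA (T : E → F) : Prop := ∀ x y, Dj x y → T (x + y) = T x + T y

/-- `R` is the join of `S` and `T` among orthogonally additive maps, ordered pointwise. -/
def IsJoin (S T R : E → F) : Prop :=
  OA R ∧ S ≤ R ∧ T ≤ R ∧ ∀ P : E → F, OA P → S ≤ P → T ≤ P → R ≤ P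

/-- The set of all `S u + T v` over disjoint decompositions `x = u + v`. -/
def Dec (S T : E → F) (x : E) : Set F := {z | ∃ u v, Dj u v ∧ x = u + v ∧ z = S u + T v}

end Defs

abbrev Om : Type := ℕ → ZMod 2

noncomputable def mu : Measure Om := Measure.addHaarMeasure ⊤

instance : IsProbabilityMeasure mu := ⟨by simpa [mu] using Measure.addHaarMeasure_self (K₀ := (⊤ : TopologicalSpace.PositiveCompacts Om))⟩

instance : mu.IsAddLeftInvariant := by unfold mu; infer_instance

lemma ig (y : C(Om, ℝ)) : Integrable y mu :=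
  y.continuous.integrable_of_hasCompactSupport (.of_compactSpace _)

noncomputable def I : C(Om, ℝ) →ₗ[ℝ] ℝ where
  toFun y := ∫ ω, y ω ∂mu
  map_add' x y := integral_add (ig x) (ig y)
  map_smul' c y := integral_smul c y

lemma Im {x y : C(Om, ℝ)} (h : ∀ ω, x ω ≤ y ω) : I x ≤ I y := integral_mono (ig x) (ig y) h

lemma I1 : I 1 = 1 := by simp [I]

def e (n : ℕ) : Om := Pi.single n 1

def sh (n : ℕ) (y : C(Om, ℝ)) : C(Om, ℝ) := y.comp ⟨fun ω => e n + ω, by fun_prop⟩

lemma Ish (n y) : I (sh n y) = I y := integral_add_left_eq_self (μ := mu) y (e n)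

noncomputable def r (n : ℕ) : C(Om, ℝ) :=
  ⟨fun ω => if ω n = 0 then 1 else -1, (continuous_of_discreteTopology
    (f := fun a : ZMod 2 => if a = 0 then (1 : ℝ) else -1)).comp (continuous_apply n)⟩

lemma r1 (n ω) : r n ω = 1 ∨ r n ω = -1 := by
  simp only [r, ContinuousMap.coe_mk]; split_ifs <;> simp

lemma rf (n ω) : r n (e n + ω) = -r n ω := by
  have : ∀ a : ZMod 2, 1 + a = 0 ↔ ¬ a = 0 := by decide
  by_cases h : ω n = 0 <;> simp [r, e, this, h]

lemma rn {n i} (h : i ≠ n) (ω) : r i (e n + ω) = r i ω := by simp [r, e, h]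

noncomputable def cyl (l : ℕ) (c : Om) : C(Om, ℝ) := ∏ i ∈ range l, (1 / 2 : ℝ) • (1 + r i c • r i)

lemma cs (l c) : cyl (l + 1) c = cyl l c * (1 / 2 : ℝ) • (1 + r l c • r l) := prod_range_succ _ _

lemma c01 (l c ω) : cyl l c ω = 0 ∨ cyl l c ω = 1 := by
  induction l with
  | zero => simp [cyl]
  | succ l ih => rcases ih with h | h <;> rcases r1 l c with a | a <;> rcases r1 l ω with b | b <;>
      simp [cs, h, a, b] <;> norm_num

lemma cf {l n} (h : l ≤ n) (c ω) : cyl l c (e n + ω) = cyl l c ω ∧ cyl l (e n + c) = cyl l c := by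
  simp only [cyl, ContinuousMap.prod_apply]
  constructor <;> refine prod_congr rfl fun i hi => ?_ <;>
    simp [rn (show i ≠ n by have := mem_range.1 hi; omega)]

lemma flip {l n} (h : l ≤ n) (c) (y : C(Om, ℝ)) : |I (y * cyl l c * r n)| ≤ I |sh n y - y| := by
  have a := Ish n (y * cyl l c * r n)
  have b : sh n (y * cyl l c * r n) = -((sh n y - y) * cyl l c * r n) - y * cyl l c * r n := by
    ext ω; simp [sh, rf, (cf h c ω).1]; ring
  rw [b, map_sub, map_neg] at a
  have p : I ((sh n y - y) * cyl l c * r n) ≤ I |sh n y - y| := Im fun ω => by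
    rcases c01 l c ω with a | a <;> rcases r1 n ω with b | b <;> simp [a, b, le_abs_self, neg_le_abs, -neg_sub]
  have q : I (-((sh n y - y) * cyl l c * r n)) ≤ I |sh n y - y| := Im fun ω => by
    rcases c01 l c ω with a | a <;> rcases r1 n ω with b | b <;> simp [a, b, le_abs_self, neg_le_abs, -neg_sub]
  rw [map_neg] at q
  rw [abs_le]; constructor <;> linarith

lemma Ic (l c) : I (cyl l c) = (1 / 2) ^ l := by
  induction l with
  | zero => simp [cyl, I1]
  | succ l ih =>
    have := flip le_rfl (l := l) c 1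
    have z : sh l 1 - 1 = 0 := by ext; simp [sh]
    simp only [z, abs_zero, map_zero, abs_nonpos_iff, one_mul] at this
    simp [cs, mul_add, ih, this, pow_succ, mul_comm]

lemma osc (y : C(Om, ℝ)) : Tendsto (fun n => I |sh n y - y|) atTop (𝓝 0) := by
  have t : Tendsto e atTop (𝓝 0) := tendsto_pi_nhds.2 fun i => tendsto_const_nhds.congr'
    ((eventually_gt_atTop i).mono fun n h => by simp [e, h.ne])
  have := tendsto_integral_of_dominated_convergence (μ := mu) (F := fun n ω => |sh n y - y| ω)
    (f := fun _ => 0) (fun _ => 2 * ‖y‖) (fun n => (ig _).1) (integrable_const _)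
    (fun n => .of_forall fun ω => by
      have := y.norm_coe_le_norm ω
      have := y.norm_coe_le_norm (e n + ω)
      simp [sh] at *
      exact (abs_sub _ _).trans (by linarith))
    (.of_forall fun ω => by
      simpa [sh] using (((y.continuous.tendsto _).comp (t.add_const ω)).sub_const (y ω)).abs)
  rw [integral_zero] at this
  exact this

def Tr : Type := List (ℕ × Bool × Om)

instance : TopologicalSpace Tr where
  IsOpen U := ∀ s ∈ U, ∀ᶠ n in atTop, ∀ p, ((n, p) :: s : List _) ∈ U
  isOpen_univ _ _ := .of_forall fun _ _ => trivial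
  isOpen_inter _ _ a b s h := ((a s h.1).and (b s h.2)).mono fun _ h p => ⟨h.1 p, h.2 p⟩
  isOpen_sUnion _ a s := fun ⟨U, b, h⟩ => (a U b s h).mono fun _ h p => ⟨U, b, h p⟩

lemma lim (g : C(Tr, ℝ)) (s : Tr) (p) :
    Tendsto (fun n => g ((n, p) :: s : List _)) atTop (𝓝 (g s)) :=
  (g.continuous.tendsto s).comp (tendsto_nhds.2 fun U h m => (h s m).mono fun _ h => h p)

noncomputable def f : List (ℕ × Bool × Om) → C(Om, ℝ)
  | [] => 0
  | a :: s => f s + (if a.2.1 then (1 - f s ^ 2) * cyl (2 * s.length) a.2.2 * r a.1 else 0)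

lemma f3 (s ω) : f s ω = 0 ∨ f s ω = 1 ∨ f s ω = -1 := by
  induction s with
  | nil => simp [f]
  | cons a s ih =>
    rw [f]; split_ifs
    · rcases ih with h | h | h <;> rcases c01 (2 * s.length) a.2.2 ω with b | b <;>
        rcases r1 a.1 ω with c | c <;> simp [h, b, c]
    · simpa using ih

noncomputable def S (x : C(Om, ℝ)) : C(Tr, ℝ) := ⟨fun s => I (f s * x), ⟨fun U h s m => by
  obtain ⟨ε, p, q⟩ := Metric.isOpen_iff.1 h _ m
  filter_upwards [eventually_ge_atTop (2 * s.length),
    (osc ((1 - f s ^ 2) * x)).eventually_lt_const p] with n a b ⟨u, c⟩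
  refine q ?_
  change |I ((f s + (if u then (1 - f s ^ 2) * cyl (2 * s.length) c * r n else 0)) * x) - I (f s * x)| < ε
  rw [add_mul, map_add, add_sub_cancel_left]
  split_ifs
  · refine lt_of_le_of_lt ?_ ((flip a c _).trans_lt b)
    apply le_of_eq; congr 2; ring
  · simpa⟩⟩

lemma dj {u v : C(Om, ℝ)} : Dj u v ↔ ∀ ω, u ω = 0 ∨ v ω = 0 := by
  simp only [Dj, ContinuousMap.ext_iff, ContinuousMap.inf_apply, ContinuousMap.abs_apply,
    ContinuousMap.zero_apply]
  refine forall_congr' fun ω => ⟨fun h => ?_, ?_⟩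
  · rcases min_choice |u ω| |v ω| with a | a <;> rw [a, abs_eq_zero] at h <;> simp [h]
  · rintro (h | h) <;> simp [h]

lemma sv (u v : C(Om, ℝ)) (t : Tr) : (S u + (-S) v) t = I (f t * u - f t * v) := by
  rw [map_sub, sub_eq_add_neg]; rfl

lemma split (t : Tr) (x : C(Om, ℝ)) : ∃ u v, Dj u v ∧ x = u + v ∧
    (S u + (-S) v) t = I (f t ^ 2 * |x|) := by
  refine ⟨f t * (f t * x ⊔ 0), x - f t * (f t * x ⊔ 0), dj.2 fun ω => ?_, by ring, ?_⟩
  · rcases f3 t ω with h | h | h <;> rcases le_total (x ω) 0 with a | a <;> simp [h, a]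
  · rw [sv]
    refine congrArg I ?_
    ext ω
    rcases f3 t ω with h | h | h <;> rcases le_total (x ω) 0 with a | a <;>
      simp [h, a, abs_of_nonneg, abs_of_nonpos]

lemma used (a : ℕ × Bool × Om) (h : a.2.1 = false) (t) :
    I (f (t ++ [a]) ^ 2) ≤ 1 / 3 - 1 / 3 * (1 / 4) ^ t.length := by
  induction t with
  | nil => simp [f, h]
  | cons b t ih =>
    have : I (f (b :: (t ++ [a])) ^ 2) ≤ I (f (t ++ [a]) ^ 2 + cyl (2 * (t ++ [a]).length) b.2.2) := by
      refine Im fun ω => ?_
      rw [f]; split_ifs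
      · rcases f3 (t ++ [a]) ω with h | h | h <;> rcases c01 (2 * (t ++ [a]).length) b.2.2 ω with d | d <;>
          rcases r1 b.1 ω with c | c <;> simp [h, *, -List.length_append]
      · rcases c01 (2 * (t ++ [a]).length) b.2.2 ω with b | b <;> simp [b, -List.length_append]
    rw [map_add, Ic, pow_mul] at this
    rw [List.length_append, List.length_singleton, show ((1 / 2 : ℝ) ^ 2) = 1 / 4 by norm_num] at this
    rw [List.length_cons, List.cons_append]
    rw [pow_succ _ t.length] at *
    linarith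

theorem result : ∃ (X Y : Type) (_ : TopologicalSpace X) (_ : TopologicalSpace Y)
    (S T R : C(X, ℝ) → C(Y, ℝ)), OA S ∧ OA T ∧ IsJoin S T R ∧ ∃ x, ¬ ∃ y, IsLUB (Dec S T x) y := by
  have ad (x y) : S (x + y) = S x + S y := by ext; simp [S, mul_add]
  refine ⟨Om, Tr, inferInstance, inferInstance, S, -S, fun x => .const _ (I |x|), fun x y _ => ad x y,
    fun x y _ => by simp [ad, add_comm], ⟨fun x y h => ?_, fun x s => Im fun ω => ?_, fun x s => ?_,
      fun P hP a b x s => ?_⟩, 1, fun ⟨y, h1, h2⟩ => ?_⟩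
  · ext s
    simp only [ContinuousMap.const_apply, ContinuousMap.add_apply, ← map_add]
    congr 1; ext ω
    rcases dj.1 h ω with h | h <;> simp [h]
  · rcases f3 s ω with h | h | h <;> simp [h, le_abs_self, neg_le_abs]
  · refine (map_neg I _).ge.trans (Im fun ω => ?_)
    rcases f3 s ω with h | h | h <;> simp [h, le_abs_self, neg_le_abs]
  · have k (t : Tr) (x) : I (f t ^ 2 * |x|) ≤ P x t := by
      obtain ⟨u, v, h, rfl, q⟩ := split t x
      rw [← q, hP u v h]
      exact add_le_add (a u t) (b v t)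
    have top (c) : I |cyl (2 * s.length) c * x| ≤ P (cyl (2 * s.length) c * x) s := by
      refine ge_of_tendsto' (lim _ s (true, c)) fun n => le_trans (Im fun ω => ?_) (k _ _)
      rcases f3 s ω with h | h | h <;> rcases c01 (2 * s.length) c ω with b | b <;>
        rcases r1 n ω with c | c <;> simp [f, h, b, c]
    have dn (j) (h : ∀ c, I |cyl (j + 1) c * x| ≤ P (cyl (j + 1) c * x) s) (c) :
        I |cyl j c * x| ≤ P (cyl j c * x) s := by
      have e1 : cyl j c * x = cyl (j + 1) c * x + cyl (j + 1) (e j + c) * x := by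
        ext ω; simp [cs, (cf le_rfl c c).2, rf]; ring
      have d : ∀ ω, (cyl (j + 1) c * x) ω = 0 ∨ (cyl (j + 1) (e j + c) * x) ω = 0 := fun ω => by
        rcases r1 j ω with a | a <;> rcases r1 j c with b | b <;> simp [cs, rf, a, b]
      rw [e1, hP _ _ (dj.2 d)]
      refine le_trans ?_ (add_le_add (h c) (h (e j + c)))
      rw [← map_add]
      exact Im fun ω => abs_add_le _ _
    have all : ∀ j, (∀ c, I |cyl j c * x| ≤ P (cyl j c * x) s) → I |x| ≤ P x s := by
      intro j
      induction j with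
      | zero => intro h; simpa [cyl] using h 0
      | succ j ih => exact fun h => ih (dn j h)
    exact all _ top
  · have lo : 1 ≤ y ([] : List _) := by
      refine ge_of_tendsto' (lim y ([] : List _) (true, 0)) fun n => ?_
      obtain ⟨u, v, h, p, q⟩ := split ([(n, true, 0)] : List _) 1
      refine le_trans ?_ (q.ge.trans (h1 ⟨u, v, h, p, rfl⟩ _))
      refine I1.ge.trans (Im fun ω => ?_)
      rcases r1 n ω with c | c <;> simp [f, c, cyl]
    have hi : y ([] : List _) ≤ 1 / 3 := by
      refine le_of_tendsto' (lim y ([] : List _) (false, 0)) fun n => ?_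
      classical
      let g : C(Tr, ℝ) := ⟨fun s => if ∃ t, s = t ++ [(n, false, 0)] then 1 / 3 else 1, ⟨fun U _ s m => by
        filter_upwards [eventually_gt_atTop n] with j hj p
        have : (∃ t, (j, p) :: s = t ++ [(n, false, 0)]) ↔ ∃ t, s = t ++ [(n, false, 0)] := by
          refine ⟨?_, fun ⟨t, h⟩ => ⟨(j, p) :: t, by rw [h]; rfl⟩⟩
          rintro ⟨_ | ⟨b, t⟩, h⟩
          · simp at h; omega
          · exact ⟨t, (List.cons.inj h).2⟩
        exact Set.mem_of_eq_of_mem (s := U) (if_congr this rfl rfl) m⟩⟩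
      refine (h2 (a := g) ?_ _).trans (if_pos ⟨[], rfl⟩).le
      rintro _ ⟨u, v, h, p, rfl⟩ s
      have : (S u + (-S) v) s ≤ I (f s ^ 2) := by
        rw [sv]
        refine Im fun ω => ?_
        have p := congrArg (· ω) p
        rcases f3 s ω with a | a | a <;> rcases dj.1 h ω with b | b <;> simp [b] at p <;> simp [a, b, ← p]
      refine this.trans ?_
      simp only [g, ContinuousMap.coe_mk]
      split_ifs with q
      · obtain ⟨t, rfl⟩ := q
        exact (used _ rfl t).trans (sub_le_self _ (by positivity))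
      · refine (Im fun ω => ?_).trans I1.le
        rcases f3 s ω with a | a | a <;> simp [a]
    linarith

end Pool.Agent.Results.MP_f32e1d_an.Q1
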